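import Mathlib

set_option autoImplicit false

namespace Pool.Agent.Results.MP_54b381_gt.IntervalBase

universe u v

/-- `𝓔` is a coarse structure on `X`: every member contains the diagonal, and the family is
closed under composition, inverse, and passing to subsets that contain the diagonal. -/
structure IsCoarse {X : Type u} (𝓔 : Set (Set (X × X))) : Prop where
  diag : ∀ E ∈ 𝓔, ∀ x : X, (x, x) ∈ E
  comp : ∀ E ∈ 𝓔, ∀ E' ∈ 𝓔, {p : X × X | ∃ z : X, (p.1, z) ∈ E ∧ (z, p.2) ∈ E'} ∈ 𝓔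
  inv : ∀ E ∈ 𝓔, {p : X × X | (p.2, p.1) ∈ E} ∈ 𝓔
  down : ∀ E ∈ 𝓔, ∀ E' : Set (X × X), (∀ x : X, (x, x) ∈ E') → E' ⊆ E → E' ∈ 𝓔

/-- The ball `E[x]`. -/
def ball {X : Type u} (E : Set (X × X)) (x : X) : Set X := {y | (x, y) ∈ E}

/-- `𝓑` is a base of `𝓔`. -/
def IsBase {X : Type u} (𝓑 𝓔 : Set (Set (X × X))) : Prop :=
  𝓑 ⊆ 𝓔 ∧ ∀ E ∈ 𝓔, ∃ E' ∈ 𝓑, E ⊆ E'

/-- Connectedness of a coarse space. -/
def IsConnectedCoarse {X : Type u} (𝓔 : Set (Set (X × X))) : Prop :=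
  ∀ x y : X, ∃ E ∈ 𝓔, y ∈ ball E x

/-- The subspace coarse structure on `Y ⊆ X`. -/
def subspace {X : Type u} (𝓔 : Set (Set (X × X))) (Y : Set X) : Set (Set (Y × Y)) :=
  {F | ∃ E ∈ 𝓔, F = {p : Y × Y | ((p.1 : X), (p.2 : X)) ∈ E}}

/-- Macro-uniform maps. -/
def MacroUniform {X : Type u} {X' : Type v} (𝓔 : Set (Set (X × X))) (𝓔' : Set (Set (X' × X')))
    (f : X → X') : Prop :=
  ∀ E ∈ 𝓔, ∃ E' ∈ 𝓔', ∀ x : X, f '' ball E x ⊆ ball E' (f x)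

/-- An asymorphism: a bijection that is macro-uniform in both directions. -/
def IsAsymorphism {X : Type u} {X' : Type v} (𝓔 : Set (Set (X × X)))
    (𝓔' : Set (Set (X' × X'))) (f : X ≃ X') : Prop :=
  MacroUniform 𝓔 𝓔' f ∧ MacroUniform 𝓔' 𝓔 f.symm

/-- The linear order of `X` is compatible with `𝓔`. -/
def Compatible {X : Type u} [LinearOrder X] (𝓔 : Set (Set (X × X))) : Prop :=
  ∀ E ∈ 𝓔, ∃ F ∈ 𝓔, ∀ x y : X, x < y → y ∉ ball F x → ∀ x' ∈ ball E x, x' < y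

/-- A linearly ordered coarse space: connected, with a compatible linear order. -/
def IsLinOrdCoarse {X : Type u} [LinearOrder X] (𝓔 : Set (Set (X × X))) : Prop :=
  IsCoarse 𝓔 ∧ IsConnectedCoarse 𝓔 ∧ Compatible 𝓔

/-- `𝓔` has a base all of whose balls are intervals `[a, b]` with `a ≤ b`. -/
def HasIntervalBase {X : Type u} [LinearOrder X] (𝓔 : Set (Set (X × X))) : Prop :=
  ∃ 𝓑 : Set (Set (X × X)), IsBase 𝓑 𝓔 ∧
    ∀ E ∈ 𝓑, ∀ x : X, ∃ a b : X, a ≤ b ∧ ball E x = Set.Icc a b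

section Proof

variable {X : Type u} [LinearOrder X]

/-- Doubled cuts of `X`. -/
abbrev Cut (X : Type u) [LinearOrder X] : Type u := LowerSet X ×ₗ Bool

/-- The point of `Cut X` immediately to the left of `S`. -/
def lo (S : Set X) : Cut X :=
  toLex (⟨{y | ∀ s ∈ S, y < s}, fun _ _ hab ha s hs => lt_of_le_of_lt hab (ha s hs)⟩, true)

/-- The point of `Cut X` at the right end of `S`. -/
def hi (S : Set X) : Cut X :=
  toLex (⟨{y | ∃ s ∈ S, y ≤ s}, fun _ _ hab ⟨s, hs, ha⟩ => ⟨s, hs, hab.trans ha⟩⟩, false)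

theorem lo_le_hi {S T : Set X} : lo S ≤ hi T ↔ ∃ s ∈ S, ∃ t ∈ T, s ≤ t := by
  unfold lo hi
  rw [Prod.Lex.toLex_le_toLex]
  constructor
  · rintro (h | ⟨-, h⟩)
    · by_contra hcon
      push Not at hcon
      refine absurd h (not_lt.mpr ?_)
      rintro y ⟨t, ht, hy⟩ s hs
      exact lt_of_le_of_lt hy (hcon s hs t ht)
    · exact absurd (show true ≤ false from h) (by decide)
  · rintro ⟨s, hs, t, ht, hst⟩
    left
    refine lt_of_not_ge fun h => ?_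
    exact lt_irrefl s (h (show s ∈ {y | ∃ s ∈ T, y ≤ s} from ⟨t, ht, hst⟩) s hs)

theorem hi_le_hi {S T : Set X} : hi S ≤ hi T ↔ ∀ s ∈ S, ∃ t ∈ T, s ≤ t := by
  unfold hi
  rw [Prod.Lex.toLex_le_toLex]
  constructor
  · intro h s hs
    have h' := h.elim le_of_lt fun h => le_of_eq h.1
    exact h' (show s ∈ {y | ∃ s ∈ S, y ≤ s} from ⟨s, hs, le_rfl⟩)
  · intro h
    refine (lt_or_eq_of_le ?_).imp id fun h => ⟨h, le_rfl⟩
    rintro y ⟨s, hs, hy⟩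
    obtain ⟨t, ht, hst⟩ := h s hs
    exact ⟨t, ht, hy.trans hst⟩

theorem hi_mono {S T : Set X} (h : S ⊆ T) : hi S ≤ hi T :=
  hi_le_hi.mpr fun s hs => ⟨s, h hs, le_rfl⟩

theorem lo_anti {S T : Set X} (h : S ⊆ T) : lo T ≤ lo S := by
  unfold lo
  rw [Prod.Lex.toLex_le_toLex]
  refine (lt_or_eq_of_le ?_).imp id fun h => ⟨h, le_rfl⟩
  intro y hy s hs
  exact hy s (h hs)

/-- The closed interval of `Cut X` spanned by `S`. -/
def cl (S : Set X) : Set (Cut X) := Set.Icc (lo S) (hi S)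

theorem cl_mono {S T : Set X} (h : S ⊆ T) : cl S ⊆ cl T :=
  Set.Icc_subset_Icc (lo_anti h) (hi_mono h)

/-- The embedding of `X` in `Cut X`. -/
def emb (x : X) : Cut X := hi {x}

theorem emb_le_emb {x y : X} : emb x ≤ emb y ↔ x ≤ y := by
  simp [emb, hi_le_hi]

theorem emb_mem_cl {S : Set X} {x : X} :
    emb x ∈ cl S ↔ (∃ s ∈ S, s ≤ x) ∧ ∃ s ∈ S, x ≤ s := by
  simp [emb, cl, lo_le_hi, hi_le_hi]

theorem emb_mem_cl_of_mem {S : Set X} {x : X} (hx : x ∈ S) : emb x ∈ cl S :=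
  emb_mem_cl.mpr ⟨⟨x, hx, le_rfl⟩, x, hx, le_rfl⟩

theorem mem_of_emb_mem_cl {S : Set X} (hS : S.OrdConnected) {x : X} (hx : emb x ∈ cl S) :
    x ∈ S := by
  obtain ⟨⟨s, hs, h1⟩, t, ht, h2⟩ := emb_mem_cl.mp hx
  exact hS.out hs ht ⟨h1, h2⟩

theorem exists_common {S T : Set X} (hS : S.OrdConnected) (hT : T.OrdConnected) {p : Cut X}
    (h1 : p ∈ cl S) (h2 : p ∈ cl T) : ∃ z, z ∈ S ∧ z ∈ T := by
  obtain ⟨s, hs, t, ht, hst⟩ := lo_le_hi.mp (h1.1.trans h2.2)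
  obtain ⟨t', ht', s', hs', hts⟩ := lo_le_hi.mp (h2.1.trans h1.2)
  rcases le_total t s' with h | h
  · exact ⟨t, hS.out hs hs' ⟨hst, h⟩, ht⟩
  · exact ⟨s', hs', hT.out ht' ht ⟨hts, h⟩⟩

variable {𝓔 : Set (Set (X × X))}

/-- Entourages with convex balls. -/
def Conv (𝓔 : Set (Set (X × X))) : Set (Set (X × X)) :=
  {E | E ∈ 𝓔 ∧ ∀ x, (ball E x).OrdConnected}

theorem exists_conv (hc : IsCoarse 𝓔) (hk : Compatible 𝓔) {E : Set (X × X)} (hE : E ∈ 𝓔) :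
    ∃ E' ∈ Conv 𝓔, E ⊆ E' := by
  obtain ⟨F, hF, hF'⟩ := hk E hE
  obtain ⟨G, hG, hG'⟩ := hk _ (hc.inv E hE)
  have hbig := hc.comp _ (hc.comp E hE G hG) F hF
  refine ⟨{p | ∃ a b, (p.1, a) ∈ E ∧ (p.1, b) ∈ E ∧ a ≤ p.2 ∧ p.2 ≤ b}, ⟨?_, ?_⟩, ?_⟩
  · refine hc.down _ hbig _ (fun x => ⟨x, x, hc.diag E hE x, hc.diag E hE x, le_rfl, le_rfl⟩) ?_
    rintro ⟨x, y⟩ ⟨a, b, ha, hb, hay, hyb⟩
    dsimp only at ha hb hay hyb
    rcases lt_trichotomy x y with h | h | h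
    · refine ⟨x, ⟨x, hc.diag E hE x, hc.diag G hG x⟩, ?_⟩
      by_contra hcon
      exact absurd (hF' x y h hcon b hb) (not_lt.mpr hyb)
    · subst h
      exact ⟨x, ⟨x, hc.diag E hE x, hc.diag G hG x⟩, hc.diag F hF x⟩
    · refine ⟨y, ⟨a, ha, ?_⟩, hc.diag F hF y⟩
      rcases hay.lt_or_eq with h' | h'
      · by_contra hcon
        exact absurd (hG' a y h' hcon x ha) (not_lt.mpr h.le)
      · subst h'
        exact hc.diag G hG a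
  · intro x
    refine ⟨?_⟩
    rintro y ⟨a, _, ha, -, hay, -⟩ z ⟨_, b, -, hb, -, hzb⟩ w ⟨hw1, hw2⟩
    exact ⟨a, b, ha, hb, hay.trans hw1, hw2.trans hzb⟩
  · rintro ⟨x, y⟩ h
    exact ⟨y, y, h, h, le_rfl, le_rfl⟩

/-- One convex entourage that absorbs a three-step zigzag. -/
theorem exists_zigzag (hc : IsCoarse 𝓔) (hk : Compatible 𝓔) {E E' : Set (X × X)}
    (hE : E ∈ 𝓔) (hE' : E' ∈ 𝓔) :
    ∃ D ∈ Conv 𝓔, E ⊆ D ∧ ∀ x y z, z ∈ ball E x → z ∈ ball E' y → ball E' y ⊆ ball D x := by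
  obtain ⟨D, hD, hsub⟩ :=
    exists_conv hc hk (hc.comp _ (hc.comp E hE _ (hc.inv E' hE')) E' hE')
  refine ⟨D, hD, ?_, ?_⟩
  · rintro ⟨x, y⟩ h
    exact hsub ⟨y, ⟨y, h, hc.diag E' hE' y⟩, hc.diag E' hE' y⟩
  · intro x y z hx hy w hw
    exact hsub ⟨y, ⟨z, hx, hy⟩, hw⟩

/-- The points of the new space. -/
def Pts (𝓔 : Set (Set (X × X))) : Set (Cut X) := {p | ∃ E ∈ Conv 𝓔, ∃ x, p ∈ cl (ball E x)}

/-- The basic entourage attached to `E`. -/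
def G (𝓔 : Set (Set (X × X))) (E : Set (X × X)) : Set (Pts 𝓔 × Pts 𝓔) :=
  {q | q.1 = q.2 ∨ ∃ x, (q.1 : Cut X) ∈ cl (ball E x) ∧ (q.2 : Cut X) ∈ cl (ball E x)}

/-- The new coarse structure. -/
def New (𝓔 : Set (Set (X × X))) : Set (Set (Pts 𝓔 × Pts 𝓔)) :=
  {F | (∀ p, (p, p) ∈ F) ∧ ∃ E ∈ Conv 𝓔, F ⊆ G 𝓔 E}

theorem G_mem {E : Set (X × X)} (hE : E ∈ Conv 𝓔) : G 𝓔 E ∈ New 𝓔 :=
  ⟨fun _ => Or.inl rfl, E, hE, subset_rfl⟩

omit [LinearOrder X] in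
theorem ball_mono {E E' : Set (X × X)} (h : E ⊆ E') (x : X) : ball E x ⊆ ball E' x :=
  fun _ hy => h hy

theorem isCoarse_new (hc : IsCoarse 𝓔) (hk : Compatible 𝓔) : IsCoarse (New 𝓔) where
  diag := fun _ hF => hF.1
  comp := by
    rintro F ⟨hF, E, hE, hFE⟩ F' ⟨hF', E', hE', hFE'⟩
    obtain ⟨D, hD, hED, hz⟩ := exists_zigzag hc hk hE.1 hE'.1
    refine ⟨fun p => ⟨p, hF p, hF' p⟩, D, hD, ?_⟩
    have hE'D : ∀ y, ball E' y ⊆ ball D y := fun y =>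
      hz y y y (hc.diag E hE.1 y) (hc.diag E' hE'.1 y)
    rintro ⟨p, r⟩ ⟨q, hpq, hqr⟩
    rcases hFE hpq with h | ⟨x, hx1, hx2⟩
    · rcases hFE' hqr with h' | ⟨y, hy1, hy2⟩
      · exact Or.inl (h.trans h')
      · dsimp only at h
        subst h
        exact Or.inr ⟨y, cl_mono (hE'D y) hy1, cl_mono (hE'D y) hy2⟩
    · rcases hFE' hqr with h' | ⟨y, hy1, hy2⟩
      · dsimp only at h'
        subst h'
        exact Or.inr ⟨x, cl_mono (ball_mono hED x) hx1, cl_mono (ball_mono hED x) hx2⟩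
      · obtain ⟨z, hz1, hz2⟩ := exists_common (hE.2 x) (hE'.2 y) hx2 hy1
        exact Or.inr ⟨x, cl_mono (ball_mono hED x) hx1, cl_mono (hz x y z hz1 hz2) hy2⟩
  inv := by
    rintro F ⟨hF, E, hE, hFE⟩
    refine ⟨fun p => hF p, E, hE, ?_⟩
    rintro ⟨p, q⟩ h
    rcases hFE h with h | ⟨x, h1, h2⟩
    · exact Or.inl h.symm
    · exact Or.inr ⟨x, h2, h1⟩
  down := by
    rintro F ⟨-, E, hE, hFE⟩ F' hF' hsub
    exact ⟨hF', E, hE, hsub.trans hFE⟩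

theorem connected_new (hc : IsCoarse 𝓔) (hn : IsConnectedCoarse 𝓔) (hk : Compatible 𝓔) :
    IsConnectedCoarse (New 𝓔) := by
  rintro ⟨p, E, hE, x, hx⟩ ⟨q, E', hE', y, hy⟩
  obtain ⟨A, hA, hxy⟩ := hn x y
  obtain ⟨D, hD, hsub⟩ := exists_conv hc hk (hc.comp _ (hc.comp A hA E' hE'.1) E hE.1)
  refine ⟨G 𝓔 D, G_mem hD, Or.inr ⟨x, cl_mono ?_ hx, cl_mono ?_ hy⟩⟩
  · intro w hw
    exact hsub ⟨x, ⟨x, hc.diag A hA x, hc.diag E' hE'.1 x⟩, hw⟩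
  · intro w hw
    exact hsub ⟨w, ⟨y, hxy, hw⟩, hc.diag E hE.1 w⟩

/-- The union of the `E`-balls whose closure contains `p`. -/
def star (E : Set (X × X)) (p : Cut X) : Set X := {y | ∃ x, p ∈ cl (ball E x) ∧ y ∈ ball E x}

theorem ball_subset_star {E : Set (X × X)} {p : Cut X} {x : X} (h : p ∈ cl (ball E x)) :
    ball E x ⊆ star E p := fun _ hw => ⟨x, h, hw⟩

/-- The interval entourage attached to `E`. -/
def H (𝓔 : Set (Set (X × X))) (E : Set (X × X)) : Set (Pts 𝓔 × Pts 𝓔) :=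
  {q | q.1 = q.2 ∨ ((∃ x, (q.1 : Cut X) ∈ cl (ball E x)) ∧ (q.2 : Cut X) ∈ cl (star E q.1))}

theorem intervalBase_new (hc : IsCoarse 𝓔) (hk : Compatible 𝓔) : HasIntervalBase (New 𝓔) := by
  have key : ∀ E ∈ Conv 𝓔, ∃ D ∈ Conv 𝓔, E ⊆ D ∧
      ∀ (p : Cut X) (x : X), p ∈ cl (ball E x) → star E p ⊆ ball D x := by
    intro E hE
    obtain ⟨D, hD, hED, hz⟩ := exists_zigzag hc hk hE.1 hE.1
    refine ⟨D, hD, hED, ?_⟩
    rintro p x hx w ⟨y, hy, hw⟩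
    obtain ⟨z, hz1, hz2⟩ := exists_common (hE.2 x) (hE.2 y) hx hy
    exact hz x y z hz1 hz2 hw
  refine ⟨H 𝓔 '' Conv 𝓔, ⟨?_, ?_⟩, ?_⟩
  · rintro _ ⟨E, hE, rfl⟩
    obtain ⟨D, hD, hED, hz⟩ := key E hE
    refine ⟨fun p => Or.inl rfl, D, hD, ?_⟩
    rintro ⟨p, q⟩ (h | ⟨⟨x, hx⟩, hq⟩)
    · exact Or.inl h
    · exact Or.inr ⟨x, cl_mono (ball_mono hED x) hx, cl_mono (hz _ x hx) hq⟩
  · rintro F ⟨-, E, hE, hFE⟩
    refine ⟨H 𝓔 E, ⟨E, hE, rfl⟩, hFE.trans ?_⟩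
    rintro ⟨p, q⟩ (h | ⟨x, h1, h2⟩)
    · exact Or.inl h
    · exact Or.inr ⟨⟨x, h1⟩, cl_mono (ball_subset_star h1) h2⟩
  · rintro _ ⟨E, hE, rfl⟩ p
    by_cases hp : ∃ x, (p : Cut X) ∈ cl (ball E x)
    · obtain ⟨x, hx⟩ := hp
      obtain ⟨D, hD, hED, hz⟩ := key E hE
      have hpst : (p : Cut X) ∈ cl (star E p) := cl_mono (ball_subset_star hx) hx
      have hle : lo (star E p) ≤ hi (star E (p : Cut X)) := hpst.1.trans hpst.2
      refine ⟨⟨lo (star E p), D, hD, x, cl_mono (hz _ x hx) ⟨le_rfl, hle⟩⟩,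
        ⟨hi (star E p), D, hD, x, cl_mono (hz _ x hx) ⟨hle, le_rfl⟩⟩, hle, ?_⟩
      ext q
      constructor
      · rintro (h | ⟨-, h⟩)
        · dsimp only at h
          subst h
          exact hpst
        · exact h
      · intro h
        exact Or.inr ⟨⟨x, hx⟩, h⟩
    · refine ⟨p, p, le_rfl, ?_⟩
      ext q
      rw [Set.Icc_self]
      constructor
      · rintro (h | ⟨h, -⟩)
        · exact h.symm
        · exact absurd h hp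
      · intro h
        exact Or.inl h.symm

theorem compatible_of_intervalBase {Z : Type u} [LinearOrder Z] {𝓕 : Set (Set (Z × Z))}
    (hc : IsCoarse 𝓕) (h : HasIntervalBase 𝓕) : Compatible 𝓕 := by
  obtain ⟨𝓑, ⟨h1, h2⟩, h3⟩ := h
  intro E hE
  obtain ⟨F, hF, hEF⟩ := h2 E hE
  refine ⟨F, h1 hF, fun x y hxy hy x' hx' => ?_⟩
  obtain ⟨a, b, -, hab⟩ := h3 F hF x
  have hx : x ∈ Set.Icc a b := hab ▸ (hc.diag F (h1 hF) x : x ∈ ball F x)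
  have hx'' : x' ∈ Set.Icc a b := hab ▸ (hEF hx' : x' ∈ ball F x)
  by_contra hcon
  exact hy (hab ▸ ⟨hx.1.trans hxy.le, (not_lt.mp hcon).trans hx''.2⟩)

end Proof

/-- Every linearly ordered coarse space is asymorphic, by an order-preserving map, to a subspace
of a linearly ordered coarse space whose coarse structure has an interval base. -/
theorem result (X : Type u) [LinearOrder X] (𝓔 : Set (Set (X × X))) (h : IsLinOrdCoarse 𝓔) :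
    ∃ (Z : Type u) (_ : LinearOrder Z) (𝓕 : Set (Set (Z × Z))),
      IsLinOrdCoarse 𝓕 ∧ HasIntervalBase 𝓕 ∧
        ∃ (Y : Set Z) (f : X ≃ Y), IsAsymorphism 𝓔 (subspace 𝓕 Y) f ∧ StrictMono f := by
  obtain ⟨hc, hn, hk⟩ := h
  have hpt : ∀ x : X, emb x ∈ Pts 𝓔 := by
    intro x
    obtain ⟨E, hE, hx⟩ := hn x x
    obtain ⟨D, hD, hED⟩ := exists_conv hc hk hE
    exact ⟨D, hD, x, emb_mem_cl_of_mem (hED hx)⟩
  let e : X → Pts 𝓔 := fun x => ⟨emb x, hpt x⟩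
  have hmono : StrictMono e := fun x y hxy =>
    lt_of_not_ge fun hge => absurd (emb_le_emb.mp hge) (not_le.mpr hxy)
  refine ⟨Pts 𝓔, inferInstance, New 𝓔,
    ⟨isCoarse_new hc hk, connected_new hc hn hk,
      compatible_of_intervalBase (isCoarse_new hc hk) (intervalBase_new hc hk)⟩,
    intervalBase_new hc hk, Set.range e, Equiv.ofInjective e hmono.injective, ⟨?_, ?_⟩, ?_⟩
  · intro E hE
    obtain ⟨D, hD, hED⟩ := exists_conv hc hk hE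
    refine ⟨_, ⟨G 𝓔 D, G_mem hD, rfl⟩, ?_⟩
    rintro x _ ⟨y, hy, rfl⟩
    exact Or.inr ⟨x, emb_mem_cl_of_mem (hc.diag D hD.1 x), emb_mem_cl_of_mem (hED hy)⟩
  · rintro _ ⟨F, ⟨-, E, hE, hFE⟩, rfl⟩
    refine ⟨_, hc.comp _ (hc.inv E hE.1) E hE.1, ?_⟩
    intro p _ ⟨q, hq, hq'⟩
    subst hq'
    obtain ⟨x, rfl⟩ := (Equiv.ofInjective e hmono.injective).surjective p
    obtain ⟨y, rfl⟩ := (Equiv.ofInjective e hmono.injective).surjective q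
    rw [Equiv.symm_apply_apply, Equiv.symm_apply_apply]
    rcases hFE hq with h | ⟨z, h1, h2⟩
    · have hxy : x = y := hmono.injective h
      subst hxy
      exact ⟨x, hc.diag E hE.1 x, hc.diag E hE.1 x⟩
    · exact ⟨z, mem_of_emb_mem_cl (hE.2 z) h1, mem_of_emb_mem_cl (hE.2 z) h2⟩
  · intro x y hxy
    exact hmono hxy

end Pool.Agent.Results.MP_54b381_gt.IntervalBase
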